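import Pool.Agent.R999.Dif9

/-!
# The Thomas-Fermi electronic energy is continuously differentiable in the nuclear positions

For point nuclei, with the formula `∇_{R_i} e = - z_i F_i = - z_i G_i`.
-/

set_option autoImplicit false

open MeasureTheory Set Filter Topology Metric
open scoped ENNReal

namespace Pool.Agent.Results.MP_689e73_mp.GradientFormula

/-- Three dimensional Euclidean space. -/
abbrev R3 := EuclideanSpace ℝ (Fin 3)

/-- `ρ ≥ 0` and `ρ ∈ L¹ ∩ L^{5/3}`. -/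
structure Density (ρ : R3 → ℝ) : Prop where
  nonneg : ∀ x, 0 ≤ ρ x
  integrable : Integrable ρ
  integrable_rpow : Integrable (fun x => ρ x ^ (5/3 : ℝ))

variable {k : ℕ}

/-- The nuclear repulsion `U`. -/
noncomputable def U (z : Fin k → ℝ) (R : Fin k → R3) : ℝ :=
  ∑ i, ∑ j ∈ Finset.univ.filter (fun j => i < j), z i * z j / ‖R i - R j‖

/-- The attraction `∫ V ρ` of the nuclei. -/
noncomputable def attraction (z : Fin k → ℝ) (R : Fin k → R3) (ρ : R3 → ℝ) : ℝ :=
  ∫ x, (∑ j, z j / ‖x - R j‖) * ρ x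

/-- The double integral of the electronic repulsion. -/
noncomputable def repulsion (ρ : R3 → ℝ) : ℝ := ∫ x, ∫ y, ρ x * ρ y / ‖x - y‖

/-- The Thomas-Fermi functional `𝓔(ρ)` for nuclear charges `z` at the positions `R`. -/
noncomputable def tf (γ : ℝ) (z : Fin k → ℝ) (R : Fin k → R3) (ρ : R3 → ℝ) : ℝ :=
  3/5 * γ * (∫ x, ρ x ^ (5/3 : ℝ)) - attraction z R ρ + 1/2 * repulsion ρ + U z R

/-- The values of the functional on the densities of total charge `lam`. -/
def energies (γ : ℝ) (z : Fin k → ℝ) (lam : ℝ) (R : Fin k → R3) : Set ℝ :=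
  {e | ∃ ρ : R3 → ℝ, Density ρ ∧ ∫ x, ρ x = lam ∧ tf γ z R ρ = e}

/-- The Thomas-Fermi energy `E`. -/
noncomputable def E (γ : ℝ) (z : Fin k → ℝ) (lam : ℝ) (R : Fin k → R3) : ℝ :=
  sInf (energies γ z lam R)

/-- The electronic energy `e = E - U`. -/
noncomputable def e (γ : ℝ) (z : Fin k → ℝ) (lam : ℝ) (R : Fin k → R3) : ℝ :=
  E γ z lam R - U z R

/-- The configurations of different nuclei. -/
def Omega (k : ℕ) : Set (Fin k → R3) := {R | ∀ i j, i ≠ j → R i ≠ R j}

/-- `ρ` is a Thomas-Fermi density: a minimiser among the densities of total charge `lam`. -/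
def IsTFDensity (γ : ℝ) (z : Fin k → ℝ) (lam : ℝ) (R : Fin k → R3) (ρ : R3 → ℝ) : Prop :=
  Density ρ ∧ ∫ x, ρ x = lam ∧ ∀ σ, Density σ → ∫ x, σ x = lam → tf γ z R ρ ≤ tf γ z R σ

/-- The electronic potential `ψ = |x|⁻¹ * ρ`. -/
noncomputable def psi (ρ : R3 → ℝ) (x : R3) : ℝ := ∫ y, ρ y / ‖x - y‖

/-- The function `ψ(x) + (16π/3) (z/γ)^{3/2} |x - P|^{1/2}`. -/
noncomputable def regPsi (γ z : ℝ) (P : R3) (ρ : R3 → ℝ) (x : R3) : ℝ :=
  psi ρ x + 16 * Real.pi / 3 * (z / γ) ^ (3/2 : ℝ) * ‖x - P‖ ^ (1/2 : ℝ)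

/-- The integral `∫_{|x - P| > a} (x - P) |x - P|⁻³ ρ(x) dx`. -/
noncomputable def field (ρ : R3 → ℝ) (P : R3) (a : ℝ) : R3 :=
  ∫ x in {x : R3 | a < ‖x - P‖}, ρ x • ((‖x - P‖ ^ 3)⁻¹ • (x - P))

/-- There is a Thomas-Fermi density and it is unique up to null sets. -/
def ExistsUniqueTF (γ : ℝ) (z : Fin k → ℝ) (lam : ℝ) (R : Fin k → R3) : Prop :=
  (∃ ρ, IsTFDensity γ z lam R ρ) ∧
    ∀ ρ σ, IsTFDensity γ z lam R ρ → IsTFDensity γ z lam R σ → ρ =ᵐ[volume] σ

/-- `F_i` exists and is `F`, where `P = R_i`. -/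
def FieldLimit (ρ : R3 → ℝ) (P F : R3) : Prop := Tendsto (field ρ P) (𝓝[>] 0) (𝓝 F)

/-- `G_i` exists and is `G`, where `P = R_i` and `z = z_i`; near `P` the gradient exists in the
usual sense. -/
def GradientLimit (γ z : ℝ) (P : R3) (ρ : R3 → ℝ) (G : R3) : Prop :=
  (∀ᶠ x in 𝓝[≠] P, DifferentiableAt ℝ (regPsi γ z P ρ) x) ∧
    Tendsto (gradient (regPsi γ z P ρ)) (𝓝[≠] P) (𝓝 G)

/-- The function `f` of the positions is differentiable at `R`, with `∇_{R_i} f = g i`. -/
def HasGradients (f : (Fin k → R3) → ℝ) (R g : Fin k → R3) : Prop :=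
  HasFDerivAt f (∑ i, (innerSL ℝ (g i)).comp (ContinuousLinearMap.proj i)) R

/-- `e` is continuously differentiable on `Ω`. -/
def ContDiffEnergy (γ : ℝ) (z : Fin k → ℝ) (lam : ℝ) : Prop :=
  ContDiffOn ℝ 1 (e γ z lam) (Omega k)

/-- The formula at `R`: for every Thomas-Fermi density the limits `F_i` and `G_i` exist and are
equal, and `∇_{R_i} e = - z_i F_i`. -/
def Formula (γ : ℝ) (z : Fin k → ℝ) (lam : ℝ) (R : Fin k → R3) : Prop :=
  ∀ ρ, IsTFDensity γ z lam R ρ → ∃ F : Fin k → R3,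
    (∀ i, FieldLimit ρ (R i) (F i)) ∧ (∀ i, GradientLimit γ (z i) (R i) ρ (F i)) ∧
      HasGradients (e γ z lam) R fun i => -(z i) • F i

open Pool.Agent.TH791.Cl Pool.Agent.R999.MinP Pool.Agent.R999.Ex

/-- **Differentiability in the nuclear positions.**  Let `γ > 0`, `z_i > 0` and `0 < λ ≤ Z`.

* For every `R ∈ Ω` there is a Thomas-Fermi density, and it is unique up to null sets.
* The electronic energy `e` is continuously differentiable on `Ω`.
* For every `R ∈ Ω` and Thomas-Fermi density `ρ` there are vectors `F_i` such that the limit `F_i`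
  and the limit `G_i` of the problem exist and are both equal to `F_i` (the function
  `ψ + (16π/3)(z_i/γ)^{3/2}|x - R_i|^{1/2}` is differentiable near `R_i`), and the derivative of `e`
  at `R` is `h ↦ ∑ i, - z_i ⟨F_i, h_i⟩`. -/
theorem result (γ : ℝ) (hγ : 0 < γ) (k : ℕ) (z : Fin k → ℝ) (hz : ∀ i, 0 < z i) (lam : ℝ)
    (h0 : 0 < lam) (h1 : lam ≤ ∑ i, z i) :
    (∀ R ∈ Omega k, ExistsUniqueTF γ z lam R) ∧ ContDiffEnergy γ z lam ∧
      ∀ R ∈ Omega k, Formula γ z lam R := by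
  classical
  have hz' : ∀ i, 0 ≤ z i := fun i => (hz i).le
  choose mu rho hI using fun R : Fin k → R3 => ionC_ex hγ hz' R h0 h1
  have hI' : ∀ R, IonC γ z R lam (mu R) (rho R) := hI
  have htf : ∀ (R : Fin k → R3) ρ, tf γ z R ρ =
      Pool.Agent.R999.TFMin.energy γ (Vn z R) ρ + U z R := fun R ρ => rfl
  -- integrability
  have hV : ∀ R : Fin k → R3, ∀ σ, Pool.Agent.R999.TFMin.Dens σ →
      Integrable fun x => Vn z R x * σ x := by
    intro R σ hσ
    obtain ⟨g, hg, hge⟩ := dens_md hσ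
    refine (Vn_mul_int hg.nice z R).1.congr ?_
    filter_upwards [hge] with x hx
    rw [hx]
  -- the canonical densities are minimisers
  have hle : ∀ R σ, Density σ → ∫ x, σ x = lam → tf γ z R (rho R) ≤ tf γ z R σ := by
    intro R σ hσ hm
    obtain ⟨g, hg, hge⟩ := dens_md ⟨hσ.1, hσ.2, hσ.3⟩
    rw [htf, htf, energy_congr hge, energy_eq γ z R (hI' R).md.nice, energy_eq γ z R hg.nice]
    have hgm : ∫ x, g x = lam := by rw [← hm]; exact (integral_congr_ae hge).symm
    have := (hI' R).min g hg hgm.le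
    linarith
  have hD : ∀ R, Density (rho R) := fun R => ⟨(hI' R).md.nonneg, (hI' R).md.int, (hI' R).md.int_pow⟩
  have hTF : ∀ R, IsTFDensity γ z lam R (rho R) := fun R =>
    ⟨hD R, (hI' R).mass, fun σ a b => hle R σ a b⟩
  have huniq : ∀ R ρ, IsTFDensity γ z lam R ρ → ρ =ᵐ[volume] rho R := by
    intro R ρ ⟨a, b, c⟩
    have h2 := Pool.Agent.R999.TFMin.tf_min hγ (hV R) (hI' R).md.dens (hI' R).eq
      (σ := ρ) ⟨a.1, a.2, a.3⟩ (by rw [b, (hI' R).mass])
    refine h2.2 ?_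
    have h3 := c (rho R) (hD R) (hI' R).mass
    rw [htf, htf] at h3
    linarith
  have he : e γ z lam = fun R => En γ z R (rho R) := by
    funext R
    have hL : IsLeast (energies γ z lam R) (tf γ z R (rho R)) := by
      refine ⟨⟨rho R, hD R, (hI' R).mass, rfl⟩, ?_⟩
      rintro x ⟨σ, a, b, rfl⟩
      exact hle R σ a b
    unfold e E
    rw [hL.csInf_eq, htf, energy_eq γ z R (hI' R).md.nice]
    ring
  refine ⟨fun R _ => ⟨⟨rho R, hTF R⟩, fun ρ σ a b => (huniq R ρ a).trans (huniq R σ b).symm⟩,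
    ?_, fun R hR ρ hρ => ?_⟩
  · unfold ContDiffEnergy
    rw [he]
    exact smooth hγ hz h0 hI'
  · obtain ⟨s1, hs1, hsep⟩ := om_sep (ι := Fin k) hR
    have hsep4 : R ∈ Sep (ι := Fin k) (4 * s1) := fun i j hij => by
      have := hsep i j hij
      linarith
    have hae := huniq R ρ hρ
    have hψ : psi ρ = pot (rho R) := by
      funext x
      exact Pool.Agent.R999.TFMin.pot_congr hae x
    choose M' hM' hNr using fun j => nr_unif hγ hz' h0 hs1 j
    have hN : ∀ i, Nr γ (z i) s1 (M' i) (rho R) (R i) := fun i =>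
      hNr i R _ _ (hI' R) fun l hl => by
        have := hsep l i hl
        linarith
    refine ⟨fun i => Fi γ (z i) s1 (rho R) (R i), fun i => ?_, fun i => ?_, ?_⟩
    · have h2 := Fi_pv hs1 (hM' i) (hI' R).md (hN i)
      refine h2.congr fun a => ?_
      unfold field
      refine integral_congr_ae (ae_restrict_of_ae ?_)
      filter_upwards [hae] with x hx
      rw [hx]; rfl
    · have h2 := grad_lim hγ (hz' i) hs1 (hM' i) (hI' R).md (hN i)
      have h3 : regPsi γ (z i) (R i) ρ = fun x => pot (rho R) x +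
          16 * Real.pi / 3 * (z i / γ) ^ (3/2 : ℝ) * ‖x - R i‖ ^ (1/2 : ℝ) := by
        funext x
        unfold regPsi
        rw [hψ]
      unfold GradientLimit
      rw [h3]
      exact ⟨h2.1.filter_mono nhdsWithin_le_nhds, h2.2.mono_left nhdsWithin_le_nhds⟩
    · unfold HasGradients
      rw [he]
      refine (hasF hγ hz h0 hI' hs1 hsep4).congr_fderiv ?_
      refine Finset.sum_congr rfl fun i _ => ?_
      rw [map_smul, ContinuousLinearMap.smul_comp]

end Pool.Agent.Results.MP_689e73_mp.GradientFormula
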